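import Pool.Agent.U934.GF.Sym

/-!
# Preperiodic points of bounded gonality: assembly
-/

set_option autoImplicit false

namespace Pool.Agent.U934.GF

open Pool.Agent.Q103.FS Pool.Agent.Y31.BI

universe u v

section

variable {K : Type u} [Field K]

/-- points -/
abbrev Pnt (K : Type u) [Field K] (n : ℕ) : Type u :=
  Projectivization (AlgebraicClosure K) (Fin (n + 1) → AlgebraicClosure K)

/-- preperiodic points of bounded gonality -/
def Prep (k : Type v) [Field k] [Algebra k K] {n : ℕ}
    (F : Fin (n + 1) → MvPolynomial (Fin (n + 1)) K) (D : ℕ) : Set (Pnt K n) :=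
  {x | (∃ m l : ℕ, m < l ∧ ∃ c : AlgebraicClosure K, c ≠ 0 ∧
    (act F)^[l] x.rep = c • (act F)^[m] x.rep) ∧ GonLE k (fieldOf x.rep) D}

/-- the binary form of a pencil -/
noncomputable def pen {n : ℕ} (P : Fin 2 → MvPolynomial (Fin (n + 1)) K) :
    Fin 2 → MvPolynomial (Fin (n + 1)) K := ![P 0, -P 1]

lemma pen_one {n : ℕ} (P : Fin 2 → MvPolynomial (Fin (n + 1)) K) : pen P 1 = -P 1 := rfl

lemma pen_val {n : ℕ} (P : Fin 2 → MvPolynomial (Fin (n + 1)) K)
    (v : Fin (n + 1) → AlgebraicClosure K) (y : Fin 2 → AlgebraicClosure K) :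
    corr (m := 1) (pen P) v y =
      MvPolynomial.aeval v (P 0) * y 1 - MvPolynomial.aeval v (P 1) * y 0 := by
  unfold corr pen
  rw [Fin.sum_univ_two]
  simp
  ring

lemma aeval_act {n : ℕ} (F : Fin (n + 1) → MvPolynomial (Fin (n + 1)) K)
    (P : MvPolynomial (Fin (n + 1)) K) (v : Fin (n + 1) → AlgebraicClosure K) :
    MvPolynomial.aeval (act F v) P = MvPolynomial.aeval v (MvPolynomial.bind₁ F P) := by
  rw [MvPolynomial.aeval_bind₁]
  rfl

lemma aeval_pen {n : ℕ} (P : Fin 2 → MvPolynomial (Fin (n + 1)) K)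
    (G : MvPolynomial (Fin 2) K) (v : Fin (n + 1) → AlgebraicClosure K) :
    MvPolynomial.aeval v (MvPolynomial.bind₁ P G) =
      MvPolynomial.aeval (fun j => MvPolynomial.aeval v (P j)) G := by
  rw [MvPolynomial.aeval_bind₁]

/-- the form at a point of the line -/
noncomputable def fib {n m : ℕ} (R : Fin (m + 1) → MvPolynomial (Fin (n + 1)) K)
    (y : Fin 2 → AlgebraicClosure K) : MvPolynomial (Fin (n + 1)) (AlgebraicClosure K) :=
  ∑ j : Fin (m + 1), MvPolynomial.C (y 0 ^ (j : ℕ) * y 1 ^ (m - j : ℕ)) *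
    MvPolynomial.map (algebraMap K (AlgebraicClosure K)) (R j)

lemma fib_eval {n m : ℕ} (R : Fin (m + 1) → MvPolynomial (Fin (n + 1)) K)
    (y : Fin 2 → AlgebraicClosure K) (v : Fin (n + 1) → AlgebraicClosure K) :
    MvPolynomial.eval v (fib R y) = corr R v y := by
  unfold fib corr
  rw [map_sum]
  refine Finset.sum_congr rfl fun j _ => ?_
  rw [map_mul, MvPolynomial.eval_C, MvPolynomial.eval_map, MvPolynomial.aeval_def]
  ring

lemma fib_hom {n m r : ℕ} {R : Fin (m + 1) → MvPolynomial (Fin (n + 1)) K}
    (hR : ∀ j, (R j).IsHomogeneous r) (y : Fin 2 → AlgebraicClosure K) :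
    (fib R y).IsHomogeneous r := by
  unfold fib
  refine MvPolynomial.IsHomogeneous.sum _ _ _ fun j _ => ?_
  have h := (MvPolynomial.isHomogeneous_C (Fin (n + 1)) (y 0 ^ (j : ℕ) * y 1 ^ (m - j : ℕ))).mul
    ((hR j).map (algebraMap K (AlgebraicClosure K)))
  rwa [zero_add] at h

end

/-- the assembly -/
theorem final (c : ℕ) : ∃ C : ℕ → ℕ → ℕ,
    ∀ (k : Type v) (K : Type u) [Field k] [CharP k c] [Field K] [Algebra k K],
    (∀ (d D : ℕ), 2 ≤ d → ∀ f : Fin 2 → MvPolynomial (Fin 2) K, IsEndo 1 d f →
      ¬ Isotriv k d f → (Prep k (n := 1) f D).encard ≤ (C d D : ℕ∞)) ∧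
    (∀ (n d D r : ℕ), 2 ≤ d → ∀ F : Fin (n + 1) → MvPolynomial (Fin (n + 1)) K,
      IsEndo n d F → ∀ P : Fin 2 → MvPolynomial (Fin (n + 1)) K,
      (∀ j, (P j).IsHomogeneous r) →
      ∀ g : Fin 2 → MvPolynomial (Fin 2) K, IsEndo 1 d g → ¬ Isotriv k d g →
      (∀ j, MvPolynomial.bind₁ F (P j) = MvPolynomial.bind₁ P (g j)) →
      ∃ S : Set (Pnt K 1), S.encard ≤ (C d D : ℕ∞) ∧ ∀ x ∈ Prep k F D,
        (∀ j, MvPolynomial.aeval x.rep (P j) = 0) ∨ ∃ s ∈ S,
          MvPolynomial.aeval x.rep (P 0) * s.rep 1 = MvPolynomial.aeval x.rep (P 1) * s.rep 0) ∧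
    (∀ (n d e m r D : ℕ), 2 ≤ e → 1 ≤ m → ∀ F : Fin (n + 1) → MvPolynomial (Fin (n + 1)) K,
      IsEndo n d F → ∀ g : Fin 2 → MvPolynomial (Fin 2) K, IsEndo 1 e g →
      ¬ Isotriv k e g → ∀ R : Fin (m + 1) → MvPolynomial (Fin (n + 1)) K,
      (∀ j, (R j).IsHomogeneous r) →
      (∀ v y, corr R v y = 0 → corr R (act F v) (act g y) = 0) →
      (∀ y : Fin 2 → AlgebraicClosure K, y ≠ 0 → ∃ v, corr R v y ≠ 0) →
      (∀ v : Fin (n + 1) → AlgebraicClosure K, v ≠ 0 →
        (∀ j, MvPolynomial.aeval (act F v) (R j) = 0) → ∀ j, MvPolynomial.aeval v (R j) = 0) →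
      ∃ (h : ℕ) (H : MvPolynomial (Fin (n + 1)) (AlgebraicClosure K)), h ≤ r * C e (m * D) ∧
        H ≠ 0 ∧ H.IsHomogeneous h ∧ ∀ x ∈ Prep k F D, MvPolynomial.eval x.rep H = 0) ∧
    (∀ (n d D : ℕ), 2 ≤ d → 1 ≤ n → ∀ f : Fin 2 → MvPolynomial (Fin 2) K, IsEndo 1 d f →
      ¬ Isotriv k d f → ∀ Φ : Fin (n + 1) → MvPolynomial (Fin (n + 1)) K, IsEndo n d Φ →
      (∀ p : Fin n → Fin 2 → AlgebraicClosure K, act Φ (pnt p) = pnt fun i => act f (p i)) →
      (Prep k Φ D).encard ≤ ((C d (n * D) ^ n : ℕ) : ℕ∞)) := by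
  classical
  by_cases hc : c.Prime ∨ c = 0
  swap
  · refine ⟨fun _ _ => 0, ?_⟩
    intro k K _ _ _ _
    exact absurd (CharP.char_is_prime_or_zero k c) hc
  have hB := orbB_all.{u} c hc
  have hex : ∀ e N : ℕ, ∃ M : ℕ, ∀ _ : 2 ≤ e,
    ∀ (k : Type v) (K : Type u) [Field k] [CharP k c] [Field K] [Algebra k K]
      (n d r m D : ℕ) (_ : 1 ≤ m) (_ : m * D ≤ N)
      (F : Fin (n + 1) → MvPolynomial (Fin (n + 1)) K) (_ : IsEndo n d F)
      (g : Fin 2 → MvPolynomial (Fin 2) K) (_ : IsEndo 1 e g) (_ : ¬ Isotriv k e g)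
      (R : Fin (m + 1) → MvPolynomial (Fin (n + 1)) K), (∀ j, (R j).IsHomogeneous r) →
      (∀ v y, corr R v y = 0 → corr R (act F v) (act g y) = 0) →
      (∀ v : Fin (n + 1) → AlgebraicClosure K, v ≠ 0 →
        (∀ j, MvPolynomial.aeval (act F v) (R j) = 0) → ∀ j, MvPolynomial.aeval v (R j) = 0) →
      ∃ S : Finset (Option (AlgebraicClosure K)),
        S.card ≤ (M + 1) * ((M + 1) * (2 * e ^ M + 1)) ∧
        ∀ v : Fin (n + 1) → AlgebraicClosure K, v ≠ 0 →
        (∃ m l : ℕ, m < l ∧ ∃ c : AlgebraicClosure K, c ≠ 0 ∧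
          (act F)^[l] v = c • (act F)^[m] v) → GonLE k (fieldOf v) D →
        (∀ j, MvPolynomial.aeval v (R j) = 0) ∨
          ((∀ z, corr R v (nu z) = 0 → z ∈ S) ∧ ∃ z ∈ S, corr R v (nu z) = 0) := by
    intro e N
    by_cases he : 2 ≤ e
    · obtain ⟨M, hM⟩ := fac_main.{u, v} hB e N he
      exact ⟨M, fun _ => hM⟩
    · exact ⟨0, fun h => absurd h he⟩
  choose M hM using hex
  refine ⟨fun e N => (M e N + 1) * ((M e N + 1) * (2 * e ^ M e N + 1)) + 1, ?_⟩
  intro k K _ _ _ _
  -- the second part
  have h2 : ∀ (n d D r : ℕ), 2 ≤ d → ∀ F : Fin (n + 1) → MvPolynomial (Fin (n + 1)) K,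
      IsEndo n d F → ∀ P : Fin 2 → MvPolynomial (Fin (n + 1)) K,
      (∀ j, (P j).IsHomogeneous r) →
      ∀ g : Fin 2 → MvPolynomial (Fin 2) K, IsEndo 1 d g → ¬ Isotriv k d g →
      (∀ j, MvPolynomial.bind₁ F (P j) = MvPolynomial.bind₁ P (g j)) →
      ∃ S : Set (Pnt K 1), S.encard ≤
        (((M d D + 1) * ((M d D + 1) * (2 * d ^ M d D + 1)) + 1 : ℕ) : ℕ∞) ∧
        ∀ x ∈ Prep k F D,
        (∀ j, MvPolynomial.aeval x.rep (P j) = 0) ∨ ∃ s ∈ S,
          MvPolynomial.aeval x.rep (P 0) * s.rep 1 =
            MvPolynomial.aeval x.rep (P 1) * s.rep 0 := by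
    intro n d D r hd F hF P hP g hg hiso hFg
    have hPF : ∀ j v, MvPolynomial.aeval (act F v) (P j) =
        act g (fun i => MvPolynomial.aeval v (P i)) j := by
      intro j v
      rw [aeval_act, hFg, aeval_pen]
      rfl
    obtain ⟨S, hS1, hS2⟩ := hM d D hd k K n d r 1 D le_rfl (by omega) F hF g hg hiso (pen P)
      (by
        intro j
        fin_cases j
        · exact hP 0
        · exact (hP 1).neg)
      (by
        intro v y h
        rw [pen_val] at h ⊢
        rw [hPF, hPF]
        set p : Fin 2 → AlgebraicClosure K := fun i => MvPolynomial.aeval v (P i) with hp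
        have h' : p 0 * y 1 = p 1 * y 0 := sub_eq_zero.mp h
        by_cases hp0 : p = 0
        · have : act g p = 0 := by
            rw [hp0]
            have h3 := act_smul hg 0 (0 : Fin 2 → AlgebraicClosure K)
            rw [smul_zero, zero_pow (by omega), zero_smul] at h3
            exact h3
          rw [this]
          simp
        · obtain ⟨a, ha⟩ : ∃ a : AlgebraicClosure K, y = a • p := by
            by_cases h0 : p 0 = 0
            · have h1 : p 1 ≠ 0 := by
                intro h1
                apply hp0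
                funext i
                fin_cases i
                · exact h0
                · exact h1
              refine ⟨y 1 / p 1, ?_⟩
              funext i
              fin_cases i
              · show y 0 = y 1 / p 1 * p 0
                rw [h0, zero_mul] at h'
                rw [h0, mul_zero]
                exact (mul_eq_zero.mp h'.symm).resolve_left h1
              · show y 1 = y 1 / p 1 * p 1
                field_simp
            · refine ⟨y 0 / p 0, ?_⟩
              funext i
              fin_cases i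
              · show y 0 = y 0 / p 0 * p 0
                field_simp
              · show y 1 = y 0 / p 0 * p 1
                field_simp
                linear_combination h'
          rw [ha, act_smul hg]
          simp only [Pi.smul_apply, smul_eq_mul]
          ring)
      (by
        intro v hv h j
        have h0 : act g (fun i => MvPolynomial.aeval v (P i)) = 0 := by
          funext i
          rw [← hPF]
          fin_cases i
          · exact h 0
          · have := h 1
            rw [pen_one, map_neg, neg_eq_zero] at this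
            exact this
        have h1 : (fun i => MvPolynomial.aeval v (P i)) = 0 :=
          hg.noZero _ fun i => congrFun h0 i
        fin_cases j
        · exact congrFun h1 0
        · have := congrFun h1 1
          simp only [pen]
          simpa using this)
    refine ⟨(fun z => Projectivization.mk (AlgebraicClosure K) (nu z) (nu_ne z)) '' (S : Set _),
      ?_, ?_⟩
    · refine (Set.encard_image_le _ _).trans ?_
      rw [Set.encard_coe_eq_coe_finsetCard]
      exact_mod_cast hS1.trans (Nat.le_succ _)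
    · rintro x ⟨hx1, hx2⟩
      rcases hS2 x.rep x.rep_nonzero hx1 hx2 with h | ⟨_, z, hz, h⟩
      · left
        intro j
        fin_cases j
        · exact h 0
        · have := h 1
          rw [pen_one, map_neg, neg_eq_zero] at this
          exact this
      · right
        refine ⟨_, ⟨z, hz, rfl⟩, ?_⟩
        obtain ⟨a, ha⟩ := Projectivization.exists_smul_eq_mk_rep (AlgebraicClosure K) (nu z)
          (nu_ne z)
        rw [pen_val, sub_eq_zero] at h
        rw [← ha]
        simp only [Pi.smul_apply, Units.smul_def, smul_eq_mul]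
        linear_combination (a : AlgebraicClosure K) * h
  refine ⟨?_, h2, ?_, ?_⟩
  · intro d D hd f hf hiso
    obtain ⟨S, hS1, hS2⟩ := h2 1 d D 1 hd f hf (fun j => MvPolynomial.X j)
      (fun j => MvPolynomial.isHomogeneous_X _ _) f hf hiso (fun j => by
        rw [MvPolynomial.bind₁_X_right]
        exact (DFunLike.congr_fun MvPolynomial.bind₁_X_left (f j)).symm)
    refine (Set.encard_le_encard ?_).trans hS1
    intro x hx
    rcases hS2 x hx with h | ⟨s, hs, h⟩
    · exfalso
      apply x.rep_nonzero
      funext j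
      have := h j
      rw [MvPolynomial.aeval_X] at this
      exact this
    · rw [MvPolynomial.aeval_X, MvPolynomial.aeval_X] at h
      have hxs : x = s := by
        have h3 : cl x.rep = cl s.rep := by
          unfold cl
          have hx0 := x.rep_nonzero
          have hs0 := s.rep_nonzero
          by_cases h1 : x.rep 1 = 0
          · have hx00 : x.rep 0 ≠ 0 := by
              intro h0
              apply hx0
              funext i
              fin_cases i
              · exact h0
              · exact h1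
            rw [h1, zero_mul] at h
            have hs1 : s.rep 1 = 0 := (mul_eq_zero.mp h).resolve_left hx00
            rw [h1, hs1, pt_zero, pt_zero]
          · have hs1 : s.rep 1 ≠ 0 := by
              intro hs1
              rw [hs1, mul_zero] at h
              have hs00 := (mul_eq_zero.mp h.symm).resolve_left h1
              apply hs0
              funext i
              fin_cases i
              · exact hs00
              · exact hs1
            rw [pt_ne h1, pt_ne hs1]
            congr 1
            rw [div_eq_div_iff h1 hs1, h]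
            ring
        obtain ⟨a, ha⟩ := cl_inj x.rep s.rep x.rep_nonzero s.rep_nonzero h3
        rw [← x.mk_rep, ← s.mk_rep, Projectivization.mk_eq_mk_iff']
        exact ⟨a, ha⟩
      rw [hxs]
      exact hs
  · intro n d e m r D he hm F hF g hg hiso R hR hinv hne hbase
    obtain ⟨S, hS1, hS2⟩ := hM e (m * D) he k K n d r m D hm le_rfl F hF g hg hiso R hR hinv hbase
    refine ⟨∑ _z ∈ insert none S, r, ∏ z ∈ insert none S, fib R (nu z), ?_, ?_, ?_, ?_⟩
    · rw [Finset.sum_const, smul_eq_mul, mul_comm]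
      refine Nat.mul_le_mul le_rfl ((Finset.card_insert_le _ _).trans ?_)
      exact Nat.succ_le_succ hS1
    · rw [Finset.prod_ne_zero_iff]
      intro z _ h0
      obtain ⟨v, hv⟩ := hne (nu z) (nu_ne z)
      apply hv
      rw [← fib_eval, h0, map_zero]
    · exact MvPolynomial.IsHomogeneous.prod _ _ _ fun z _ => fib_hom hR (nu z)
    · rintro x ⟨hx1, hx2⟩
      rw [map_prod]
      rcases hS2 x.rep x.rep_nonzero hx1 hx2 with h | ⟨_, z, hz, h⟩
      · refine Finset.prod_eq_zero (Finset.mem_insert_self _ _) ?_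
        rw [fib_eval]
        unfold corr
        refine Finset.sum_eq_zero fun j _ => ?_
        rw [h j, zero_mul, zero_mul]
      · refine Finset.prod_eq_zero (Finset.mem_insert_of_mem hz) ?_
        rw [fib_eval]
        exact h
  · intro n d D hd hn f hf hiso Φ hΦ hs
    obtain ⟨S, hS1, hS2⟩ := hM d (n * D) hd k K n d 1 n D hn le_rfl Φ hΦ f hf hiso
      (fun j => MvPolynomial.X j) (fun j => MvPolynomial.isHomogeneous_X _ _)
      (by
        intro v y h
        rw [corr_X] at h ⊢
        exact sym_inv (by omega) hΦ hf hs v y h)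
      (by
        intro v hv h j
        exfalso
        apply act_ne hΦ v hv
        funext i
        have := h i
        rw [MvPolynomial.aeval_X] at this
        exact this)
    refine (Set.encard_le_encard (t := {x : Pnt K n | ∀ z, val x.rep (nu z) = 0 → z ∈ S})
      ?_).trans ((sym_count S).trans ?_)
    · rintro x ⟨hx1, hx2⟩ z hz
      rcases hS2 x.rep x.rep_nonzero hx1 hx2 with h | ⟨h, _⟩
      · exfalso
        apply x.rep_nonzero
        funext i
        have := h i
        rw [MvPolynomial.aeval_X] at this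
        exact this
      · apply h
        rw [corr_X]
        exact hz
    · exact_mod_cast Nat.pow_le_pow_left (hS1.trans (Nat.le_succ _)) n

end Pool.Agent.U934.GF
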