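import Pool.Agent.Q103.FS.Iso
import Pool.Agent.Q103.FS.Core0
import Pool.Agent.Q103.FS.Orb
import Pool.Agent.Y706.CH.Gon

/-!
# Preperiodic points of bounded gonality: rational maps in one variable
-/

set_option autoImplicit false

namespace Pool.Agent.U934.GF

open Pool.Agent.Q103.FS Pool.Agent.Q41.SU Pool.Agent.Q41.SP
open Pool.Agent.W277.UH Pool.Agent.Y706.BI Pool.Agent.Y31.BI Pool.Agent.Y706.CH7
open Polynomial

universe u v

/-- the bound for orbits, in every characteristic -/
theorem orbB_all (c : ℕ) (hc : c.Prime ∨ c = 0) : OrbB.{u} c := by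
  rcases hc with h | h
  · intro n d hd
    obtain ⟨B, hB⟩ := orbP.{u} c n d h hd
    refine ⟨B, ?_⟩
    intro k' E _ _ _ _ _ t G _ hG hcard p q hp hq hco P hP hx hiso
    have : Fact c.Prime := ⟨h⟩
    have : CharP E c := charP_of_injective_algebraMap (algebraMap k' E).injective c
    exact hB k' E t G hG hcard p q hp hq hco P hP hx hiso
  · rw [h]
    exact orbB_zero.{u}

/-- gonality at most `D` -/
def GonLE (k : Type*) (E : Type*) [Field k] [Field E] [Algebra k E] (D : ℕ) : Prop :=
  ∃ t : E, Transcendental k t ∧ FiniteDimensional (IntermediateField.adjoin k {t}) E ∧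
    Module.finrank (IntermediateField.adjoin k {t}) E ≤ D

/-- gonality in finite extensions -/
lemma gon_ext {k : Type v} {E L : Type u} [Field k] [Field E] [Field L] [Algebra k E]
    [Algebra E L] [Algebra k L] [IsScalarTower k E L] [FiniteDimensional E L] (m D : ℕ)
    (hm : Module.finrank E L ≤ m) (h : GonLE k E D) : GonLE k L (m * D) := by
  obtain ⟨t, ht, hfd, hD⟩ := h
  obtain ⟨h1, h2⟩ := tower (k := k) t L
  refine ⟨algebraMap E L t, (transcendental_algebraMap_iff (algebraMap E L).injective).2 ht,
    h1, ?_⟩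
  rw [h2, mul_comm]
  exact Nat.mul_le_mul hm hD

/-- short orbits of the preperiodic points over fields of bounded gonality -/
theorem short {c : ℕ} (hB : OrbB.{u} c) (n d : ℕ) (hd : 2 ≤ d) : ∃ M : ℕ,
    ∀ (k : Type v) (K L F : Type u) [Field k] [CharP k c] [Field K] [Field L] [Field F]
      [Algebra k K] [Algebra k L] [Algebra k F] [Algebra K L] [Algebra K F] [Algebra L F]
      [IsScalarTower K L F] [IsScalarTower k L F], GonLE k L n →
      ∀ (p q : K[X]), IsCoprime p q → max p.natDegree q.natDegree = d →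
      ¬ IsoAlg k (p.map (algebraMap K F)) (q.map (algebraMap K F)) d →
      ∀ y : Option L, (Set.range fun m : ℕ => (ratP1 (p.map (algebraMap K F))
        (q.map (algebraMap K F)) d)^[m] (y.map (algebraMap L F))).Finite →
      ∃ a b : ℕ, b < a ∧ a ≤ M ∧
        (ratP1 (p.map (algebraMap K F)) (q.map (algebraMap K F)) d)^[a]
          (y.map (algebraMap L F)) =
        (ratP1 (p.map (algebraMap K F)) (q.map (algebraMap K F)) d)^[b]
          (y.map (algebraMap L F)) := by
  classical
  obtain ⟨M, hM⟩ := orb_len.{u, v} hB n d hd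
  refine ⟨M, ?_⟩
  intro k K L F _ _ _ _ _ _ _ _ _ _ _ _ _ hgon p q hco hmax hiso y hfin
  obtain ⟨t, ht, hfd, hn⟩ := hgon
  have hmm : ∀ g : K[X], (g.map (algebraMap K L)).map (algebraMap L F) =
      g.map (algebraMap K F) := by
    intro g
    rw [Polynomial.map_map, ← IsScalarTower.algebraMap_eq]
  have hyfin : (Set.range fun m : ℕ => (ratP1 (p.map (algebraMap K L))
      (q.map (algebraMap K L)) d)^[m] y).Finite := by
    apply pre_map (algebraMap L F)
    rw [hmm, hmm]
    exact hfin
  have hc : ¬ ConjConst (algebraicClosure k L) (p.map (algebraMap K L))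
      (q.map (algebraMap K L)) d := by
    intro h
    apply hiso
    have h1 := isoAlg_map (IsScalarTower.toAlgHom k L F) (isoAlg_of_conjConst h)
    have h2 : ((IsScalarTower.toAlgHom k L F : L →ₐ[k] F) : L →+* F) = algebraMap L F := rfl
    rw [h2, hmm, hmm] at h1
    exact h1
  have hcard := hM k L t ht hfd hn _ _ (hco.map (Polynomial.mapRingHom (algebraMap K L)))
    (deg_map p q d hmax) hc y hyfin
  obtain ⟨a, b, hab, ha, h⟩ := pigeon (ratP1 (p.map (algebraMap K L))
      (q.map (algebraMap K L)) d) y (Set.range fun m : ℕ => (ratP1 (p.map (algebraMap K L))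
      (q.map (algebraMap K L)) d)^[m] y) M (by
        rw [hyfin.encard_eq_coe_toFinset_card]
        exact_mod_cast hcard) (fun m => ⟨m, rfl⟩)
  refine ⟨a, b, hab, ha, ?_⟩
  have h1 := congrArg (Option.map (algebraMap L F)) h
  rw [← ratP1_iter_map, ← ratP1_iter_map, hmm, hmm] at h1
  exact h1

/-- dehomogenisation commutes with extensions of the field -/
lemma deh_map {K F : Type*} [Field K] [Field F] (j : K →+* F) (d : ℕ)
    (G : MvPolynomial (Fin 2) K) : deh d (MvPolynomial.map j G) = (deh d G).map j := by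
  ext i
  rw [deh_coeff, coeff_map, deh_coeff, MvPolynomial.coeff_map]
  split_ifs
  · rfl
  · rw [map_zero]

end Pool.Agent.U934.GF
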