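import Pool.Agent.U934.GF.Asm
import Pool.Agent.Results.MP_13bc7b_nt.ThinFamilies
import Pool.Agent.Y706.P9

/-!
# Families of symmetric powers of endomorphisms of the projective line
-/

set_option autoImplicit false

namespace Pool.Agent.U934.GF

open Pool.Agent.Results.MP_13bc7b_nt.GenericCount (IsMorphism preper generic special RF image
  orbit degree box AlmostAll)
open Pool.Agent.Results.MP_13bc7b_nt.ThinFamilies (Equidistributed NullIn vector)
open Polynomial NumberField Filter Topology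

universe v

section twist

variable {K : Type} [Field K]

/-- the twist of a vector -/
def tw {A : Type*} [Neg A] (y : Fin 2 → A) : Fin 2 → A := ![-y 0, y 1]

lemma tw_tw {A : Type*} [Ring A] (y : Fin 2 → A) : tw (tw y) = y := by
  funext i
  fin_cases i <;> simp [tw]

/-- the coefficients of the product of linear forms -/
noncomputable def spt {A : Type*} [Field A] {n : ℕ} (p : Fin n → Fin 2 → A) : Fin (n + 1) → A :=
  fun j => (∏ i, (C (p i 0) + C (p i 1) * X)).coeff j

lemma spt_eq {A : Type*} [Field A] {n : ℕ} (p : Fin n → Fin 2 → A) :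
    spt p = pnt fun i => tw (p i) := by
  funext j
  unfold spt pnt frm
  congr 1
  refine Finset.prod_congr rfl fun i _ => ?_
  simp only [tw, Matrix.cons_val_one, Matrix.cons_val_zero, map_neg]
  ring

/-- the twist of an endomorphism -/
noncomputable def twf (f : Fin 2 → MvPolynomial (Fin 2) K) : Fin 2 → MvPolynomial (Fin 2) K :=
  ![-MvPolynomial.bind₁ ![-MvPolynomial.X 0, MvPolynomial.X 1] (f 0),
    MvPolynomial.bind₁ ![-MvPolynomial.X 0, MvPolynomial.X 1] (f 1)]

lemma act_twf (f : Fin 2 → MvPolynomial (Fin 2) K) (y : Fin 2 → AlgebraicClosure K) :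
    act (twf f) y = tw (act f (tw y)) := by
  have h : (fun i => MvPolynomial.aeval y ((![-MvPolynomial.X 0, MvPolynomial.X 1] :
      Fin 2 → MvPolynomial (Fin 2) K) i)) = tw y := by
    funext i
    fin_cases i <;> simp [tw]
  funext i
  fin_cases i
  · show MvPolynomial.aeval y (-MvPolynomial.bind₁ _ (f 0)) = -MvPolynomial.aeval (tw y) (f 0)
    rw [map_neg, MvPolynomial.aeval_bind₁, h]
  · show MvPolynomial.aeval y (MvPolynomial.bind₁ _ (f 1)) = MvPolynomial.aeval (tw y) (f 1)
    rw [MvPolynomial.aeval_bind₁, h]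

lemma tw_zero {A : Type*} [Ring A] {y : Fin 2 → A} (h : tw y = 0) : y = 0 := by
  rw [← tw_tw y, h]
  funext i
  fin_cases i <;> simp [tw]

lemma endo_twf {d : ℕ} {f : Fin 2 → MvPolynomial (Fin 2) K} (hf : IsEndo 1 d f) :
    IsEndo 1 d (twf f) := by
  have h1 : ∀ i, ((![-MvPolynomial.X 0, MvPolynomial.X 1] :
      Fin 2 → MvPolynomial (Fin 2) K) i).IsHomogeneous 1 := by
    intro i
    fin_cases i
    · exact (MvPolynomial.isHomogeneous_X _ _).neg
    · exact MvPolynomial.isHomogeneous_X _ _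
  have h2 : ∀ j, (MvPolynomial.bind₁ ![-MvPolynomial.X 0, MvPolynomial.X 1] (f j) :
      MvPolynomial (Fin 2) K).IsHomogeneous d := by
    intro j
    have := (hf.hom j).aeval _ h1
    rw [one_mul] at this
    exact this
  constructor
  · intro i
    fin_cases i
    · exact (h2 0).neg
    · exact h2 1
  · intro v hv
    have h3 : act (twf f) v = 0 := funext hv
    rw [act_twf] at h3
    exact tw_zero (hf.noZero _ fun i => congrFun (tw_zero h3) i)

lemma isotriv_twf {F₀ : Type v} [Field F₀] [Algebra F₀ K] {d : ℕ}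
    {f : Fin 2 → MvPolynomial (Fin 2) K} (h : Isotriv F₀ d (twf f)) : Isotriv F₀ d f := by
  obtain ⟨A, F', h1, h2, h3, h4⟩ := h
  have hmul : ∀ w : Fin 2 → AlgebraicClosure K,
      (!![-1, 0; 0, 1] : Matrix (Fin 2) (Fin 2) (AlgebraicClosure K)).mulVec w = tw w := by
    intro w
    funext i
    fin_cases i <;> simp [tw, Matrix.mulVec, dotProduct, Fin.sum_univ_two]
  refine ⟨!![-1, 0; 0, 1] * A, F', ?_, h2, h3, ?_⟩
  · rw [Matrix.det_mul, Matrix.det_fin_two_of]
    simpa using h1
  · intro v hv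
    obtain ⟨c, hc, h5⟩ := h4 v hv
    refine ⟨c, hc, ?_⟩
    rw [act_twf] at h5
    rw [← Matrix.mulVec_mulVec, ← Matrix.mulVec_mulVec, hmul, hmul, ← tw_tw (act f _), h5]
    funext i
    fin_cases i
    · show -(c * _) = c * -_
      ring
    · rfl

end twist

section bridge

variable {K : Type} [Field K]

lemma adj_eq {n : ℕ} (x : Fin (n + 1) → AlgebraicClosure K) :
    IntermediateField.adjoin K (Set.range fun ij : Fin (n + 1) × Fin (n + 1) =>
      x ij.1 / x ij.2) = fieldOf x := by
  apply le_antisymm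
  · rw [IntermediateField.adjoin_le_iff]
    rintro _ ⟨⟨i, j⟩, rfl⟩
    by_cases h : x j = 0
    · show x i / x j ∈ fieldOf x
      rw [h, div_zero]
      exact zero_mem _
    · exact IntermediateField.subset_adjoin K _ ⟨i, j, h, rfl⟩
  · unfold fieldOf
    rw [IntermediateField.adjoin_le_iff]
    rintro _ ⟨i, j, _, rfl⟩
    exact IntermediateField.subset_adjoin K _ ⟨(i, j), rfl⟩

lemma fd_field {n : ℕ} (x : Fin (n + 1) → AlgebraicClosure K) :
    FiniteDimensional K (fieldOf x) := by
  rw [← adj_eq]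
  exact IntermediateField.finiteDimensional_adjoin fun a _ => Algebra.IsIntegral.isIntegral a

lemma preper_sub {F₀ : Type v} [Field F₀] [Algebra F₀ K] {n B g : ℕ} (hg : GonLE F₀ K g)
    (F : Fin (n + 1) → MvPolynomial (Fin (n + 1)) K) : preper F B ⊆ Prep F₀ F (B * g) := by
  rintro x ⟨h1, h2⟩
  refine ⟨?_, ?_⟩
  · have hni : ¬ Function.Injective (fun j : ℕ => Submodule.span (AlgebraicClosure K)
        {(image F)^[j] x.rep}) := fun hinj => Set.infinite_range_of_injective hinj h1
    have key : ∀ a b : ℕ, a < b → Submodule.span (AlgebraicClosure K) {(image F)^[a] x.rep} =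
        Submodule.span (AlgebraicClosure K) {(image F)^[b] x.rep} →
        ∃ m l : ℕ, m < l ∧ ∃ c : AlgebraicClosure K, c ≠ 0 ∧
          (act F)^[l] x.rep = c • (act F)^[m] x.rep := by
      intro a b hab h
      rw [Submodule.span_singleton_eq_span_singleton] at h
      obtain ⟨z, hz⟩ := h
      exact ⟨a, b, hab, z, z.ne_zero, hz.symm⟩
    unfold Function.Injective at hni
    push Not at hni
    obtain ⟨a, b, hab, hne⟩ := hni
    rcases lt_or_gt_of_ne hne with h | h
    · exact key a b h hab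
    · exact key b a h hab.symm
  · have hfd := fd_field x.rep
    refine gon_ext (k := F₀) (E := K) (L := fieldOf x.rep) B g ?_ hg
    unfold Pool.Agent.Results.MP_13bc7b_nt.GenericCount.degree at h2
    rw [adj_eq] at h2
    exact h2

/-- the bound for the symmetric powers -/
theorem sym_bound : ∃ κ : ℕ → ℕ → ℕ, ∀ (F₀ K : Type) [Field F₀] [CharZero F₀] [Field K]
    [Algebra F₀ K] (g : ℕ), GonLE F₀ K g → ∀ (n d B : ℕ), 1 ≤ n → 2 ≤ d →
    ∀ f : Fin 2 → MvPolynomial (Fin 2) K, (∀ i, (f i).IsHomogeneous d) → IsMorphism f →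
    ¬ Isotriv F₀ d f → ∀ Φ : Fin (n + 1) → MvPolynomial (Fin (n + 1)) K,
    (∀ i, (Φ i).IsHomogeneous d) → IsMorphism Φ →
    (∀ p : Fin n → Fin 2 → AlgebraicClosure K, act Φ (spt p) = spt fun i => act f (p i)) →
    (preper Φ B).encard ≤ ((κ d (n * (B * g)) ^ n : ℕ) : ℕ∞) := by
  obtain ⟨κ, hκ⟩ := final.{0, 0} 0
  refine ⟨κ, ?_⟩
  intro F₀ K _ _ _ _ g hg n d B hn hd f hf1 hf2 hiso Φ hΦ1 hΦ2 hs
  have hcp : CharP F₀ 0 := CharP.ofCharZero _
  refine (Set.encard_le_encard (preper_sub hg Φ)).trans ?_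
  have hf : IsEndo 1 d f := ⟨hf1, hf2⟩
  refine (hκ F₀ K).2.2.2 n d (B * g) hd hn (twf f) (endo_twf hf) (fun h => hiso (isotriv_twf h))
    Φ ⟨hΦ1, hΦ2⟩ ?_
  intro q
  have h1 : pnt q = spt fun i => tw (q i) := by
    rw [spt_eq]
    simp only [tw_tw]
  rw [h1, hs, spt_eq]
  congr 1
  funext i
  exact (act_twf f (q i)).symm

end bridge

section others

variable {k : Type} [Field k] {m : ℕ}

lemma others_gon (i : Fin m) : GonLE (Pool.Agent.Y706.subF k i) (RF k m) 1 := by
  set t : RF k m := algebraMap (MvPolynomial (Fin m) k) (RF k m) (MvPolynomial.X i) with ht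
  have hgen : ∀ x : RF k m, x ∈ IntermediateField.adjoin (Pool.Agent.Y706.subF k i) {t} := by
    intro x
    have h := Pool.Agent.Y706.gen_sub i
      (IntermediateField.adjoin (Pool.Agent.Y706.subF k i) {t}).toSubfield
      (fun y hy => (IntermediateField.adjoin (Pool.Agent.Y706.subF k i) {t}).algebraMap_mem ⟨y, hy⟩)
      (IntermediateField.mem_adjoin_simple_self _ _) x
    exact h
  have hsurj : Function.Surjective
      (algebraMap (IntermediateField.adjoin (Pool.Agent.Y706.subF k i) {t}) (RF k m)) :=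
    fun x => ⟨⟨x, hgen x⟩, rfl⟩
  refine ⟨t, Pool.Agent.Y706.tr_sub i, Module.Finite.of_surjective (Algebra.linearMap
    (IntermediateField.adjoin (Pool.Agent.Y706.subF k i) {t}) (RF k m)) hsurj, ?_⟩
  refine finrank_le_one (1 : RF k m) fun x => ?_
  refine ⟨⟨x, hgen x⟩, ?_⟩
  rw [Algebra.smul_def, mul_one]
  rfl

end others

end Pool.Agent.U934.GF
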