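import Pool.Agent.U934.GF.Core

/-!
# Endomorphisms of projective space with a one-dimensional factor
-/

set_option autoImplicit false

namespace Pool.Agent.U934.GF

open Pool.Agent.Q103.FS Pool.Agent.Q41.SU Pool.Agent.Q41.SP
open Pool.Agent.W277.UH Pool.Agent.Y706.BI Pool.Agent.Y31.BI Pool.Agent.Y706.CH7
open Polynomial

universe u v

section defs

variable {K : Type u} [Field K]

/-- `F` is an endomorphism of `P^n` of degree `d` -/
structure IsEndo (n d : ℕ) (F : Fin (n + 1) → MvPolynomial (Fin (n + 1)) K) : Prop where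
  hom : ∀ i, (F i).IsHomogeneous d
  noZero : ∀ v : Fin (n + 1) → AlgebraicClosure K, (∀ i, MvPolynomial.aeval v (F i) = 0) → v = 0

/-- the action on vectors -/
noncomputable def act {n : ℕ} (F : Fin (n + 1) → MvPolynomial (Fin (n + 1)) K)
    (v : Fin (n + 1) → AlgebraicClosure K) : Fin (n + 1) → AlgebraicClosure K :=
  fun i => MvPolynomial.aeval v (F i)

/-- the form in two variables -/
noncomputable def corr {n m : ℕ} (R : Fin (m + 1) → MvPolynomial (Fin (n + 1)) K)
    (v : Fin (n + 1) → AlgebraicClosure K) (y : Fin 2 → AlgebraicClosure K) :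
    AlgebraicClosure K :=
  ∑ j : Fin (m + 1), MvPolynomial.aeval v (R j) * y 0 ^ (j : ℕ) * y 1 ^ (m - j : ℕ)

end defs

section hom

variable {K : Type u} [Field K] {n : ℕ}

lemma aeval_smul_hom {A : Type*} [CommRing A] [Algebra K A] {r : ℕ}
    {P : MvPolynomial (Fin (n + 1)) K} (hP : P.IsHomogeneous r) (c : A) (v : Fin (n + 1) → A) :
    MvPolynomial.aeval (c • v) P = c ^ r * MvPolynomial.aeval v P := by
  rw [MvPolynomial.aeval_def, MvPolynomial.aeval_def, MvPolynomial.eval₂_eq',
    MvPolynomial.eval₂_eq', Finset.mul_sum]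
  refine Finset.sum_congr rfl fun s hs => ?_
  have h1 : s.sum (fun _ e => e) = r := by
    have := hP (MvPolynomial.mem_support_iff.mp hs)
    rw [Finsupp.weight_apply] at this
    simpa using this
  have h2 : ∑ i, s i = r := by
    rw [← h1, Finsupp.sum_fintype _ _ (fun _ => rfl)]
  simp only [Pi.smul_apply, smul_eq_mul, mul_pow, Finset.prod_mul_distrib]
  rw [Finset.prod_pow_eq_pow_sum, h2]
  ring

lemma act_smul {d : ℕ} {F : Fin (n + 1) → MvPolynomial (Fin (n + 1)) K} (hF : IsEndo n d F)
    (c : AlgebraicClosure K) (v : Fin (n + 1) → AlgebraicClosure K) :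
    act F (c • v) = c ^ d • act F v := by
  funext i
  exact aeval_smul_hom (hF.hom i) c v

lemma act_ne {d : ℕ} {F : Fin (n + 1) → MvPolynomial (Fin (n + 1)) K} (hF : IsEndo n d F)
    (v : Fin (n + 1) → AlgebraicClosure K) (hv : v ≠ 0) : act F v ≠ 0 := by
  intro h
  exact hv (hF.noZero v fun i => congrFun h i)

lemma iter_ne {d : ℕ} {F : Fin (n + 1) → MvPolynomial (Fin (n + 1)) K} (hF : IsEndo n d F)
    (v : Fin (n + 1) → AlgebraicClosure K) (hv : v ≠ 0) (i : ℕ) : (act F)^[i] v ≠ 0 := by
  induction i with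
  | zero => exact hv
  | succ i ih =>
    rw [Function.iterate_succ_apply']
    exact act_ne hF _ ih

lemma iter_smul {d : ℕ} {F : Fin (n + 1) → MvPolynomial (Fin (n + 1)) K} (hF : IsEndo n d F)
    (c : AlgebraicClosure K) (hc : c ≠ 0) (v : Fin (n + 1) → AlgebraicClosure K) (i : ℕ) :
    ∃ a : AlgebraicClosure K, a ≠ 0 ∧ (act F)^[i] (c • v) = a • (act F)^[i] v := by
  induction i with
  | zero => exact ⟨c, hc, rfl⟩
  | succ i ih =>
    obtain ⟨a, ha, h⟩ := ih
    refine ⟨a ^ d, pow_ne_zero _ ha, ?_⟩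
    rw [Function.iterate_succ_apply', h, act_smul hF, Function.iterate_succ_apply']

/-- the orbit of a preperiodic point is finite -/
lemma orbit_fin {d : ℕ} {F : Fin (n + 1) → MvPolynomial (Fin (n + 1)) K} (hF : IsEndo n d F)
    (v : Fin (n + 1) → AlgebraicClosure K) {m l : ℕ} (hml : m < l) {c : AlgebraicClosure K}
    (hc : c ≠ 0) (h : (act F)^[l] v = c • (act F)^[m] v) (i : ℕ) :
    ∃ j < l, ∃ a : AlgebraicClosure K, a ≠ 0 ∧ (act F)^[i] v = a • (act F)^[j] v := by
  induction i using Nat.strong_induction_on with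
  | _ i ih =>
    by_cases hi : i < l
    · exact ⟨i, hi, 1, one_ne_zero, (one_smul _ _).symm⟩
    · obtain ⟨j, hj, a, ha, hij⟩ := ih (i - l + m) (by omega)
      obtain ⟨b, hb, h2⟩ := iter_smul hF c hc ((act F)^[m] v) (i - l)
      refine ⟨j, hj, b * a, mul_ne_zero hb ha, ?_⟩
      have e1 : i = (i - l) + l := by omega
      conv_lhs => rw [e1, Function.iterate_add_apply, h, h2, ← Function.iterate_add_apply, hij]
      rw [smul_smul]

lemma corr_smul {m r : ℕ} {R : Fin (m + 1) → MvPolynomial (Fin (n + 1)) K}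
    (hR : ∀ j, (R j).IsHomogeneous r) (c : AlgebraicClosure K)
    (v : Fin (n + 1) → AlgebraicClosure K) (y : Fin 2 → AlgebraicClosure K) :
    corr R (c • v) y = c ^ r * corr R v y := by
  unfold corr
  rw [Finset.mul_sum]
  refine Finset.sum_congr rfl fun j _ => ?_
  rw [aeval_smul_hom (hR j)]
  ring

lemma corr_smul_right {m : ℕ} (R : Fin (m + 1) → MvPolynomial (Fin (n + 1)) K)
    (c : AlgebraicClosure K) (v : Fin (n + 1) → AlgebraicClosure K)
    (y : Fin 2 → AlgebraicClosure K) : corr R v (c • y) = c ^ m * corr R v y := by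
  unfold corr
  rw [Finset.mul_sum]
  refine Finset.sum_congr rfl fun j _ => ?_
  have h : (j : ℕ) + (m - j) = m := by
    have := j.2
    omega
  simp only [Pi.smul_apply, smul_eq_mul, mul_pow]
  calc _ = c ^ ((j : ℕ) + (m - j)) * (MvPolynomial.aeval v (R j) * y 0 ^ (j : ℕ) *
        y 1 ^ (m - j : ℕ)) := by rw [pow_add]; ring
    _ = _ := by rw [h]

end hom

section points

/-- homogeneous coordinates of a point of the line -/
noncomputable def nu {A : Type*} [Zero A] [One A] : Option A → (Fin 2 → A)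
  | some u => ![u, 1]
  | none => ![1, 0]

lemma cl_nu {A : Type*} [Field A] (z : Option A) : cl (nu z) = z := by
  cases z with
  | none =>
    show pt (1 : A) 0 = none
    exact pt_zero 1
  | some u =>
    show pt u (1 : A) = some u
    rw [pt_ne one_ne_zero, div_one]

lemma nu_ne {A : Type*} [Field A] (z : Option A) : nu z ≠ 0 := by
  cases z with
  | none =>
    intro h
    have := congrFun h 0
    simp [nu] at this
  | some u =>
    intro h
    have := congrFun h 1
    simp [nu] at this

lemma nu_cl {A : Type*} [Field A] (y : Fin 2 → A) (hy : y ≠ 0) :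
    ∃ a : A, a ≠ 0 ∧ y = a • nu (cl y) := by
  obtain ⟨a, ha⟩ := cl_inj y (nu (cl y)) hy (nu_ne _) (cl_nu _).symm
  refine ⟨a, ?_, ha.symm⟩
  rintro rfl
  exact hy (by rw [← ha, zero_smul])

variable {K : Type u} [Field K] {n m : ℕ}

lemma corr_nu (R : Fin (m + 1) → MvPolynomial (Fin (n + 1)) K)
    (v : Fin (n + 1) → AlgebraicClosure K) (u : AlgebraicClosure K) :
    corr R v (nu (some u)) =
      (∑ j : Fin (m + 1), C (MvPolynomial.aeval v (R j)) * X ^ (j : ℕ)).eval u := by
  unfold corr
  rw [eval_finsetSum]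
  refine Finset.sum_congr rfl fun j _ => ?_
  rw [eval_mul, eval_C, eval_pow, eval_X]
  show MvPolynomial.aeval v (R j) * u ^ (j : ℕ) * 1 ^ (m - j : ℕ) = _
  rw [one_pow, mul_one]

lemma corr_nu_none (R : Fin (m + 1) → MvPolynomial (Fin (n + 1)) K)
    (v : Fin (n + 1) → AlgebraicClosure K) :
    corr R v (nu none) = MvPolynomial.aeval v (R (Fin.last m)) := by
  unfold corr
  rw [Finset.sum_eq_single (Fin.last m)]
  · simp [nu]
  · intro j _ hj
    have h : m - (j : ℕ) ≠ 0 := by
      have h1 := j.2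
      have h2 : (j : ℕ) ≠ m := fun h => hj (Fin.ext h)
      omega
    simp [nu, h]
  · intro h
    exact absurd (Finset.mem_univ _) h

lemma coeff_corr {A : Type*} [Semiring A] (a : Fin (m + 1) → A) (j : Fin (m + 1)) :
    (∑ i : Fin (m + 1), C (a i) * X ^ (i : ℕ)).coeff (j : ℕ) = a j := by
  rw [finsetSum_coeff, Finset.sum_eq_single j]
  · simp
  · intro i _ hi
    rw [coeff_C_mul, coeff_X_pow, if_neg, mul_zero]
    intro h
    exact hi (Fin.ext h.symm)
  · intro h
    exact absurd (Finset.mem_univ _) h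

lemma roots_fin (R : Fin (m + 1) → MvPolynomial (Fin (n + 1)) K)
    (v : Fin (n + 1) → AlgebraicClosure K) (h : ∃ j, MvPolynomial.aeval v (R j) ≠ 0) :
    {z : Option (AlgebraicClosure K) | corr R v (nu z) = 0}.Finite := by
  classical
  set ρ : (AlgebraicClosure K)[X] :=
    ∑ j : Fin (m + 1), C (MvPolynomial.aeval v (R j)) * X ^ (j : ℕ) with hρ
  have hρ0 : ρ ≠ 0 := by
    obtain ⟨j, hj⟩ := h
    intro h0
    apply hj
    rw [← coeff_corr (fun i => MvPolynomial.aeval v (R i)) j, ← hρ, h0, coeff_zero]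
  refine ((Set.finite_singleton (none : Option (AlgebraicClosure K))).union
    (ρ.roots.toFinset.finite_toSet.image some)).subset ?_
  intro z hz
  cases z with
  | none => exact Or.inl rfl
  | some u =>
    right
    refine ⟨u, ?_, rfl⟩
    rw [Finset.mem_coe, Multiset.mem_toFinset, mem_roots hρ0, IsRoot.def, hρ, ← corr_nu]
    exact hz

end points

section main

variable {K : Type u} [Field K]

/-- the field of definition of a point -/
noncomputable def fieldOf {n : ℕ} (v : Fin (n + 1) → AlgebraicClosure K) :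
    IntermediateField K (AlgebraicClosure K) :=
  IntermediateField.adjoin K {a | ∃ i j, v j ≠ 0 ∧ a = v i / v j}

/-- conjugate to an endomorphism with constant coefficients -/
def Isotriv (k : Type v) [Field k] [Algebra k K] {n : ℕ} (d : ℕ)
    (F : Fin (n + 1) → MvPolynomial (Fin (n + 1)) K) : Prop :=
  ∃ (A : Matrix (Fin (n + 1)) (Fin (n + 1)) (AlgebraicClosure K))
    (F' : Fin (n + 1) → MvPolynomial (Fin (n + 1)) (AlgebraicClosure K)),
    A.det ≠ 0 ∧ (∀ i, (F' i).IsHomogeneous d) ∧ (∀ i s, IsAlgebraic k ((F' i).coeff s)) ∧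
    ∀ v : Fin (n + 1) → AlgebraicClosure K, v ≠ 0 → ∃ c : AlgebraicClosure K, c ≠ 0 ∧
      act F (A.mulVec v) = c • A.mulVec (fun i => MvPolynomial.eval v (F' i))

lemma act_eq_fm (g : Fin 2 → MvPolynomial (Fin 2) K) :
    act g = fm (MvPolynomial.map (algebraMap K (AlgebraicClosure K)) (g 0))
      (MvPolynomial.map (algebraMap K (AlgebraicClosure K)) (g 1)) := by
  funext v
  funext i
  unfold act fm
  fin_cases i
  · simp [MvPolynomial.aeval_def, MvPolynomial.eval_map]
  · simp [MvPolynomial.aeval_def, MvPolynomial.eval_map]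

lemma map_hom {d : ℕ} {P : MvPolynomial (Fin 2) K} (hP : P.IsHomogeneous d) :
    (MvPolynomial.map (algebraMap K (AlgebraicClosure K)) P).IsHomogeneous d :=
  hP.map _

lemma nz_map {e : ℕ} {g : Fin 2 → MvPolynomial (Fin 2) K} (hg : IsEndo 1 e g) :
    ∀ v : Fin 2 → AlgebraicClosure K,
      MvPolynomial.eval v (MvPolynomial.map (algebraMap K (AlgebraicClosure K)) (g 0)) = 0 →
      MvPolynomial.eval v (MvPolynomial.map (algebraMap K (AlgebraicClosure K)) (g 1)) = 0 →
      v = 0 := by
  intro v h0 h1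
  apply hg.noZero v
  intro i
  fin_cases i
  · rw [MvPolynomial.aeval_def, ← MvPolynomial.eval_map]
    exact h0
  · rw [MvPolynomial.aeval_def, ← MvPolynomial.eval_map]
    exact h1

lemma deh_co {e : ℕ} {g : Fin 2 → MvPolynomial (Fin 2) K} (he : e ≠ 0) (hg : IsEndo 1 e g) :
    IsCoprime (deh e (g 0)) (deh e (g 1)) ∧
      max (deh e (g 0)).natDegree (deh e (g 1)).natDegree = e := by
  have h1 := deh_coprime (map_hom (hg.hom 0)) (map_hom (hg.hom 1)) (nz_map hg)
  have h2 := deh_max he (map_hom (hg.hom 0)) (map_hom (hg.hom 1)) (nz_map hg)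
  rw [deh_map, deh_map] at h1 h2
  refine ⟨(Polynomial.isCoprime_map (algebraMap K (AlgebraicClosure K))).mp h1, ?_⟩
  rw [natDegree_map, natDegree_map] at h2
  exact h2

lemma not_isoAlg {k : Type v} [Field k] [Algebra k K] {e : ℕ} (he : 1 ≤ e)
    {g : Fin 2 → MvPolynomial (Fin 2) K} (hg : IsEndo 1 e g) (hiso : ¬ Isotriv k e g) :
    ¬ IsoAlg k ((deh e (g 0)).map (algebraMap K (AlgebraicClosure K)))
      ((deh e (g 1)).map (algebraMap K (AlgebraicClosure K))) e := by
  intro h
  apply hiso
  rw [← deh_map, ← deh_map] at h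
  have hinf : Infinite (AlgebraicClosure K) := inferInstance
  obtain ⟨A, F', G', h1, h2, h3, h4, h5⟩ := iso_frozen he (map_hom (hg.hom 0))
    (map_hom (hg.hom 1))
    (deh_coprime (map_hom (hg.hom 0)) (map_hom (hg.hom 1)) (nz_map hg))
    (deh_max (by omega) (map_hom (hg.hom 0)) (map_hom (hg.hom 1)) (nz_map hg)) h
  refine ⟨A, ![F', G'], h1, ?_, ?_, ?_⟩
  · intro i
    fin_cases i
    · exact h2
    · exact h3
  · intro i s
    fin_cases i
    · exact (h4 s).1
    · exact (h4 s).2
  · intro v hv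
    obtain ⟨c, hc, h6⟩ := h5 v hv
    refine ⟨c, hc, ?_⟩
    rw [act_eq_fm]
    unfold fm
    rw [h6]
    congr 2
    funext i
    fin_cases i <;> rfl

/-- the class of the iterates -/
lemma cl_act {e : ℕ} {g : Fin 2 → MvPolynomial (Fin 2) K} (hg : IsEndo 1 e g)
    (z : Option (AlgebraicClosure K)) (i : ℕ) :
    (act g)^[i] (nu z) ≠ 0 ∧ cl ((act g)^[i] (nu z)) =
      (ratP1 ((deh e (g 0)).map (algebraMap K (AlgebraicClosure K)))
        ((deh e (g 1)).map (algebraMap K (AlgebraicClosure K))) e)^[i] z := by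
  have h := cl_iter (map_hom (hg.hom 0)) (map_hom (hg.hom 1)) (nz_map hg) (nu z) (nu_ne z) i
  rw [cl_nu, deh_map, deh_map, ← act_eq_fm] at h
  exact h

/-- **endomorphisms with a one-dimensional factor** -/
theorem fac_main {c : ℕ} (hB : OrbB.{u} c) (e N : ℕ) (he : 2 ≤ e) : ∃ M : ℕ,
    ∀ (k : Type v) (K : Type u) [Field k] [CharP k c] [Field K] [Algebra k K]
      (n d r m D : ℕ) (_ : 1 ≤ m) (_ : m * D ≤ N)
      (F : Fin (n + 1) → MvPolynomial (Fin (n + 1)) K) (_ : IsEndo n d F)
      (g : Fin 2 → MvPolynomial (Fin 2) K) (_ : IsEndo 1 e g) (_ : ¬ Isotriv k e g)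
      (R : Fin (m + 1) → MvPolynomial (Fin (n + 1)) K), (∀ j, (R j).IsHomogeneous r) →
      (∀ v y, corr R v y = 0 → corr R (act F v) (act g y) = 0) →
      (∀ v : Fin (n + 1) → AlgebraicClosure K, v ≠ 0 →
        (∀ j, MvPolynomial.aeval (act F v) (R j) = 0) → ∀ j, MvPolynomial.aeval v (R j) = 0) →
      ∃ S : Finset (Option (AlgebraicClosure K)),
        S.card ≤ (M + 1) * ((M + 1) * (2 * e ^ M + 1)) ∧
        ∀ v : Fin (n + 1) → AlgebraicClosure K, v ≠ 0 →
        (∃ m l : ℕ, m < l ∧ ∃ c : AlgebraicClosure K, c ≠ 0 ∧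
          (act F)^[l] v = c • (act F)^[m] v) → GonLE k (fieldOf v) D →
        (∀ j, MvPolynomial.aeval v (R j) = 0) ∨
          ((∀ z, corr R v (nu z) = 0 → z ∈ S) ∧ ∃ z ∈ S, corr R v (nu z) = 0) := by
  classical
  obtain ⟨M, hM⟩ := short.{u, v} hB N e he
  refine ⟨M, ?_⟩
  intro k K _ _ _ _ n d r m D hm hN F hF g hg hiso R hR hinv hbase
  obtain ⟨hco, hmax⟩ := deh_co (by omega) hg
  have hnoiso := not_isoAlg (by omega) hg hiso
  set P := (deh e (g 0)).map (algebraMap K (AlgebraicClosure K)) with hP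
  set Q := (deh e (g 1)).map (algebraMap K (AlgebraicClosure K)) with hQ
  set f := ratP1 P Q e with hf
  -- the points with short orbits
  set S : Set (Option (AlgebraicClosure K)) :=
    {z | ∃ a b : ℕ, b < a ∧ a ≤ M ∧ f^[a] z = f^[b] z} with hS
  have hScard : S.encard ≤ (((M + 1) * ((M + 1) * (2 * e ^ M + 1)) : ℕ) : ℕ∞) := by
    refine cnt e M he P Q (hco.map (Polynomial.mapRingHom (algebraMap K (AlgebraicClosure K))))
      (deg_map _ _ e hmax) S ?_
    intro z hz
    exact hz
  have hSfin : S.Finite := Set.finite_of_encard_le_coe hScard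
  refine ⟨hSfin.toFinset, ?_, ?_⟩
  · rw [hSfin.encard_eq_coe_toFinset_card] at hScard
    exact_mod_cast hScard
  intro v hv hpre hgon
  by_cases hall : ∀ j, MvPolynomial.aeval v (R j) = 0
  · exact Or.inl hall
  right
  push Not at hall
  obtain ⟨m', l', hml, c', hc', hpre⟩ := hpre
  -- the key step
  have key : ∀ (L : Type u) [Field L] [Algebra k L] [Algebra K L]
      [Algebra L (AlgebraicClosure K)] [IsScalarTower K L (AlgebraicClosure K)]
      [IsScalarTower k L (AlgebraicClosure K)], GonLE k L N → ∀ y : Option L,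
      corr R v (nu (y.map (algebraMap L (AlgebraicClosure K)))) = 0 →
      y.map (algebraMap L (AlgebraicClosure K)) ∈ hSfin.toFinset := by
    intro L _ _ _ _ _ _ hL y hy
    set z := y.map (algebraMap L (AlgebraicClosure K)) with hz
    rw [Set.Finite.mem_toFinset]
    have hcz : ∀ i, corr R ((act F)^[i] v) ((act g)^[i] (nu z)) = 0 := by
      intro i
      induction i with
      | zero => exact hy
      | succ i ih =>
        rw [Function.iterate_succ_apply', Function.iterate_succ_apply']
        exact hinv _ _ ih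
    have hnz : ∀ i, ∃ j, MvPolynomial.aeval ((act F)^[i] v) (R j) ≠ 0 := by
      intro i
      induction i with
      | zero => exact hall
      | succ i ih =>
        by_contra hcon
        push Not at hcon
        obtain ⟨j, hj⟩ := ih
        apply hj
        rw [Function.iterate_succ_apply'] at hcon
        exact hbase _ (iter_ne hF v hv i) hcon j
    have hfin : (Set.range fun i : ℕ => f^[i] z).Finite := by
      refine (Set.Finite.biUnion (Finset.range l').finite_toSet
        (t := fun j => {z | corr R ((act F)^[j] v) (nu z) = 0}) fun j _ =>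
          roots_fin R _ (hnz j)).subset ?_
      rintro _ ⟨i, rfl⟩
      obtain ⟨j, hj, a, ha, hij⟩ := orbit_fin hF v hml hc' hpre i
      obtain ⟨h1, h2⟩ := cl_act hg z i
      obtain ⟨b, hb, h3⟩ := nu_cl _ h1
      rw [h2] at h3
      simp only [Set.mem_iUnion]
      refine ⟨j, by simpa using hj, ?_⟩
      have h4 := hcz i
      rw [hij, corr_smul hR, h3, corr_smul_right] at h4
      have h5 := (mul_eq_zero.mp h4).resolve_left (pow_ne_zero _ ha)
      exact (mul_eq_zero.mp h5).resolve_left (pow_ne_zero _ hb)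
    exact hM k K L (AlgebraicClosure K) hL (deh e (g 0)) (deh e (g 1)) hco hmax hnoiso y hfin
  -- the coordinates in the field of definition
  obtain ⟨i0, hi0⟩ : ∃ i, v i ≠ 0 := by
    by_contra hcon
    push Not at hcon
    exact hv (funext hcon)
  set E := fieldOf v with hE
  have hmem : ∀ i, v i / v i0 ∈ E := fun i =>
    IntermediateField.subset_adjoin K _ ⟨i, i0, hi0, rfl⟩
  set w : Fin (n + 1) → E := fun i => ⟨v i / v i0, hmem i⟩ with hw
  have hwv : (fun i => algebraMap E (AlgebraicClosure K) (w i)) = (v i0)⁻¹ • v := by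
    funext i
    show v i / v i0 = (v i0)⁻¹ * v i
    rw [div_eq_inv_mul]
  set a : Fin (m + 1) → E := fun j => MvPolynomial.aeval w (R j) with ha
  have haj : ∀ j, algebraMap E (AlgebraicClosure K) (a j) =
      (v i0)⁻¹ ^ r * MvPolynomial.aeval v (R j) := by
    intro j
    rw [← aeval_smul_hom (hR j), ← hwv, ha]
    exact (MvPolynomial.aeval_algebraMap_apply (AlgebraicClosure K) w (R j)).symm
  have hs : (v i0)⁻¹ ^ r ≠ 0 := pow_ne_zero _ (inv_ne_zero hi0)
  set ρ : E[X] := ∑ j : Fin (m + 1), C (a j) * X ^ (j : ℕ) with hρ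
  have hρ0 : ρ ≠ 0 := by
    obtain ⟨j, hj⟩ := hall
    intro h0
    have h1 := coeff_corr a j
    rw [← hρ, h0, coeff_zero] at h1
    have h2 := haj j
    rw [← h1, map_zero] at h2
    exact hj ((mul_eq_zero.mp h2.symm).resolve_left hs)
  have hρd : ρ.natDegree ≤ m := by
    rw [natDegree_le_iff_coeff_eq_zero]
    intro i hi
    rw [hρ, finsetSum_coeff]
    refine Finset.sum_eq_zero fun j _ => ?_
    rw [coeff_C_mul, coeff_X_pow, if_neg, mul_zero]
    have := j.2
    omega
  have hρu : ∀ u : AlgebraicClosure K, aeval u ρ =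
      (v i0)⁻¹ ^ r * corr R v (nu (some u)) := by
    intro u
    rw [corr_nu, hρ, map_sum, eval_finsetSum, Finset.mul_sum]
    refine Finset.sum_congr rfl fun j _ => ?_
    rw [eval_mul, eval_C, eval_pow, eval_X, map_mul, aeval_C, map_pow, aeval_X, haj]
    ring
  have hst : IsScalarTower k E (AlgebraicClosure K) := IsScalarTower.of_algebraMap_eq fun x => rfl
  have hgN : GonLE k E N := by
    obtain ⟨t, h1, h2, h3⟩ := hgon
    exact ⟨t, h1, h2, (h3.trans (Nat.le_mul_of_pos_left D (by omega))).trans hN⟩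
  have hall' : ∀ z, corr R v (nu z) = 0 → z ∈ hSfin.toFinset := by
    intro z hz
    cases z with
    | none => exact key E hgN none hz
    | some u =>
      have hu : aeval u ρ = 0 := by rw [hρu, hz, mul_zero]
      have hint : IsIntegral E u := Algebra.IsIntegral.isIntegral u
      have hfr : Module.finrank E (IntermediateField.adjoin E {u}) ≤ m := by
        rw [IntermediateField.adjoin.finrank hint]
        exact (natDegree_le_natDegree (minpoly.degree_le_of_ne_zero E u hρ0 hu)).trans hρd
      have hfdu : FiniteDimensional E (IntermediateField.adjoin E {u}) :=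
        IntermediateField.adjoin.finiteDimensional hint
      have hgL : GonLE k (IntermediateField.adjoin E {u}) N := by
        obtain ⟨t, h1, h2, h3⟩ := gon_ext (k := k) (L := IntermediateField.adjoin E {u}) m D hfr
          hgon
        exact ⟨t, h1, h2, h3.trans hN⟩
      have hst2 : IsScalarTower K (IntermediateField.adjoin E {u}) (AlgebraicClosure K) :=
        IsScalarTower.of_algebraMap_eq fun x => rfl
      have hst3 : IsScalarTower k (IntermediateField.adjoin E {u}) (AlgebraicClosure K) :=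
        IsScalarTower.of_algebraMap_eq fun x => rfl
      exact key (IntermediateField.adjoin E {u}) hgL
        (some (IntermediateField.AdjoinSimple.gen E u)) hz
  refine ⟨hall', ?_⟩
  obtain ⟨z, hz⟩ : ∃ z, corr R v (nu z) = 0 := by
    by_cases htop : a (Fin.last m) = 0
    · refine ⟨none, ?_⟩
      rw [corr_nu_none]
      have h1 := haj (Fin.last m)
      rw [htop, map_zero] at h1
      exact (mul_eq_zero.mp h1.symm).resolve_left hs
    · have hρm : ρ.coeff m ≠ 0 := by
        have := coeff_corr a (Fin.last m)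
        rw [Fin.val_last] at this
        rw [hρ, this]
        exact htop
      have hdeg : ρ.degree ≠ 0 := by
        rw [degree_eq_natDegree hρ0, le_antisymm hρd (le_natDegree_of_ne_zero hρm)]
        exact_mod_cast (by omega : m ≠ 0)
      obtain ⟨u, hu⟩ := IsAlgClosed.exists_aeval_eq_zero (AlgebraicClosure K) ρ hdeg
      rw [hρu] at hu
      exact ⟨some u, (mul_eq_zero.mp hu).resolve_left hs⟩
  exact ⟨z, hall' z hz, hz⟩

end main

end Pool.Agent.U934.GF
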