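import Pool.Agent.U934.GF.Fib

/-!
# Symmetric powers of the projective line
-/

set_option autoImplicit false

namespace Pool.Agent.U934.GF

open Polynomial

universe u v

section count

variable {A : Type*} [Field A] {n : ℕ}

/-- the value of a binary form -/
def val (v : Fin (n + 1) → A) (y : Fin 2 → A) : A :=
  ∑ j : Fin (n + 1), v j * y 0 ^ (j : ℕ) * y 1 ^ (n - j : ℕ)

/-- the polynomial with given zeros -/
noncomputable def frm (p : Fin n → Fin 2 → A) : A[X] := ∏ i, (C (p i 1) * X - C (p i 0))

/-- the point with given zeros -/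
noncomputable def pnt (p : Fin n → Fin 2 → A) : Fin (n + 1) → A := fun j => (frm p).coeff j

lemma lin_deg (q : Fin 2 → A) : (C (q 1) * X - C (q 0)).natDegree ≤ 1 := by
  refine (natDegree_sub_le _ _).trans (max_le ?_ ?_)
  · exact (natDegree_C_mul_le _ _).trans natDegree_X_le
  · rw [natDegree_C]
    exact Nat.zero_le _

lemma frm_deg (p : Fin n → Fin 2 → A) : (frm p).natDegree ≤ n := by
  unfold frm
  refine (natDegree_prod_le _ _).trans ((Finset.sum_le_card_nsmul _ _ 1 fun i _ =>
    lin_deg (p i)).trans ?_)
  simp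

lemma val_smul (c : A) (v : Fin (n + 1) → A) (y : Fin 2 → A) :
    val (c • v) y = c * val v y := by
  unfold val
  rw [Finset.mul_sum]
  refine Finset.sum_congr rfl fun j _ => ?_
  rw [Pi.smul_apply, smul_eq_mul]
  ring

lemma val_pnt (p : Fin n → Fin 2 → A) (y : Fin 2 → A) :
    val (pnt p) y = ∏ i, (p i 1 * y 0 - p i 0 * y 1) := by
  by_cases hy : y 1 = 0
  · unfold val
    rw [Finset.sum_eq_single (Fin.last n)]
    · have h1 : (frm p).coeff n = ∏ i, p i 1 := by
        have := coeff_prod_of_natDegree_le (s := Finset.univ)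
          (fun i => C (p i 1) * X - C (p i 0)) 1 (fun i _ => lin_deg (p i))
        simp only [Finset.card_univ, Fintype.card_fin, mul_one, coeff_sub, coeff_C_mul,
          coeff_X_one] at this
        unfold frm
        rw [this]
        refine Finset.prod_congr rfl fun i _ => ?_
        rw [coeff_C_of_ne_zero one_ne_zero, sub_zero]
      show (frm p).coeff ((Fin.last n : Fin (n + 1)) : ℕ) * _ * _ = _
      rw [Fin.val_last, h1, Nat.sub_self, pow_zero, mul_one]
      simp only [hy, mul_zero, sub_zero]
      rw [Finset.prod_mul_distrib, Finset.prod_const, Finset.card_univ, Fintype.card_fin]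
    · intro j _ hj
      have h : n - (j : ℕ) ≠ 0 := by
        have h1 := j.2
        have h2 : (j : ℕ) ≠ n := fun h => hj (Fin.ext h)
        omega
      rw [hy, zero_pow h, mul_zero]
    · intro h
      exact absurd (Finset.mem_univ _) h
  · have h1 : val (pnt p) y = y 1 ^ n * (frm p).eval (y 0 / y 1) := by
      rw [eval_eq_sum_range' (Nat.lt_succ_of_le (frm_deg p)), Finset.mul_sum,
        ← Fin.sum_univ_eq_sum_range (fun i => y 1 ^ n * ((frm p).coeff i * (y 0 / y 1) ^ i))]
      unfold val
      refine Finset.sum_congr rfl fun j _ => ?_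
      show (frm p).coeff (j : ℕ) * _ * _ = _
      have h2 : y 1 ^ n = y 1 ^ (n - j : ℕ) * y 1 ^ (j : ℕ) := by
        rw [← pow_add]
        congr 1
        have := j.2
        omega
      rw [h2, div_pow]
      field_simp
    have h3 : y 1 ^ n = ∏ _i : Fin n, y 1 := by simp
    rw [h1, h3]
    unfold frm
    rw [eval_prod, ← Finset.prod_mul_distrib]
    refine Finset.prod_congr rfl fun i _ => ?_
    simp only [eval_sub, eval_mul, eval_C, eval_X]
    field_simp

/-- the product over a list of zeros -/
lemma list_prod (l : List A) : ∀ n : ℕ, l.length ≤ n →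
    ∏ i : Fin n, (C (nu (l[(i : ℕ)]?) 1) * X - C (nu (l[(i : ℕ)]?) 0)) =
      (-1) ^ (n - l.length) * (l.map fun u => X - C u).prod := by
  induction l with
  | nil =>
    intro n _
    simp [nu]
  | cons a t ih =>
    intro n hn
    obtain ⟨n', rfl⟩ : ∃ n', n = n' + 1 := ⟨n - 1, by simp at hn; omega⟩
    have ht : t.length ≤ n' := by simpa using hn
    rw [Fin.prod_univ_succ]
    simp only [Fin.val_zero, List.getElem?_cons_zero, Fin.val_succ, List.getElem?_cons_succ]
    rw [ih n' ht]
    simp only [List.map_cons, List.prod_cons, List.length_cons, Nat.reduceSubDiff]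
    simp only [nu]
    simp
    ring

/-- every form is a product of linear forms -/
lemma exists_zeros [IsAlgClosed A] (v : Fin (n + 1) → A) (hv : v ≠ 0) :
    ∃ (g : Fin n → Option A) (c : A), c ≠ 0 ∧ v = c • pnt fun i => nu (g i) := by
  set P : A[X] := ∑ j : Fin (n + 1), C (v j) * X ^ (j : ℕ) with hP
  have hco : ∀ j : Fin (n + 1), P.coeff (j : ℕ) = v j := fun j => coeff_corr v j
  have hP0 : P ≠ 0 := by
    intro h
    apply hv
    funext j
    rw [← hco j, h, coeff_zero]
    rfl
  have hPd : P.natDegree ≤ n := by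
    rw [natDegree_le_iff_coeff_eq_zero]
    intro i hi
    rw [hP, finsetSum_coeff]
    refine Finset.sum_eq_zero fun j _ => ?_
    rw [coeff_C_mul, coeff_X_pow, if_neg, mul_zero]
    have := j.2
    omega
  have hsplit := IsAlgClosed.splits P
  have hprod := hsplit.eq_prod_roots
  have hcard : P.roots.toList.length ≤ n := by
    rw [Multiset.length_toList]
    exact (card_roots' P).trans hPd
  have hl := list_prod P.roots.toList n hcard
  have hlp : ((P.roots.toList).map fun u => X - C u).prod = (P.roots.map fun u => X - C u).prod := by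
    rw [← Multiset.prod_coe, ← Multiset.map_coe, Multiset.coe_toList]
  refine ⟨fun i => P.roots.toList[(i : ℕ)]?,
    P.leadingCoeff * (-1) ^ (n - P.roots.toList.length), ?_, ?_⟩
  · exact mul_ne_zero (leadingCoeff_ne_zero.mpr hP0) (pow_ne_zero _ (neg_ne_zero.mpr one_ne_zero))
  · funext j
    rw [Pi.smul_apply, smul_eq_mul]
    show v j = _ * (frm _).coeff (j : ℕ)
    unfold frm
    rw [hl, hlp, ← hco j]
    have h1 : ((-1 : A[X]) ^ (n - P.roots.toList.length) * (P.roots.map fun u => X - C u).prod) =
        C ((-1 : A) ^ (n - P.roots.toList.length)) * (P.roots.map fun u => X - C u).prod := by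
      rw [C_pow, C_neg, C_1]
    rw [h1, coeff_C_mul, mul_assoc, ← mul_assoc ((-1 : A) ^ _), ← mul_pow]
    rw [neg_one_mul, neg_neg, one_pow, one_mul]
    conv_lhs => rw [hprod]
    rw [coeff_C_mul]

/-- the points with all zeros in a finite set -/
theorem sym_count [IsAlgClosed A] (S : Finset (Option A)) :
    {x : Projectivization A (Fin (n + 1) → A) | ∀ z, val x.rep (nu z) = 0 → z ∈ S}.encard ≤
      ((S.card ^ n : ℕ) : ℕ∞) := by
  classical
  choose G c hc hG using fun x : Projectivization A (Fin (n + 1) → A) =>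
    exists_zeros x.rep x.rep_nonzero
  have hinj : Function.Injective G := by
    intro x y hxy
    rw [← x.mk_rep, ← y.mk_rep, Projectivization.mk_eq_mk_iff']
    refine ⟨c x / c y, ?_⟩
    conv_lhs => rw [hG y]
    rw [smul_smul, div_mul_cancel₀ _ (hc y), ← hxy]
    exact (hG x).symm
  rw [← hinj.encard_image]
  have hsub : G '' {x | ∀ z, val x.rep (nu z) = 0 → z ∈ S} ⊆
      ((Fintype.piFinset fun _ : Fin n => S : Finset (Fin n → Option A)) : Set _) := by
    rintro _ ⟨x, hx, rfl⟩
    rw [Finset.mem_coe, Fintype.mem_piFinset]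
    intro i
    apply hx
    rw [hG x, val_smul, val_pnt]
    refine mul_eq_zero_of_right _ (Finset.prod_eq_zero (Finset.mem_univ i) ?_)
    ring
  refine (Set.encard_le_encard hsub).trans ?_
  rw [Set.encard_coe_eq_coe_finsetCard, Fintype.card_piFinset]
  simp

end count

section symm

variable {K : Type u} [Field K] {n : ℕ}

lemma corr_X (v : Fin (n + 1) → AlgebraicClosure K) (y : Fin 2 → AlgebraicClosure K) :
    corr (fun j => MvPolynomial.X j) v y = val v y := by
  unfold corr val
  refine Finset.sum_congr rfl fun j _ => ?_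
  rw [MvPolynomial.aeval_X]

/-- the correspondence of a symmetric power -/
lemma sym_inv {d : ℕ} (hd : 1 ≤ d) {Φ : Fin (n + 1) → MvPolynomial (Fin (n + 1)) K}
    (hΦ : IsEndo n d Φ) {f : Fin 2 → MvPolynomial (Fin 2) K} (hf : IsEndo 1 d f)
    (hs : ∀ p : Fin n → Fin 2 → AlgebraicClosure K, act Φ (pnt p) = pnt fun i => act f (p i))
    (v : Fin (n + 1) → AlgebraicClosure K) (y : Fin 2 → AlgebraicClosure K)
    (h : val v y = 0) : val (act Φ v) (act f y) = 0 := by
  by_cases hv : v = 0
  · have h3 := act_smul hΦ 0 (0 : Fin (n + 1) → AlgebraicClosure K)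
    rw [smul_zero, zero_pow (by omega), zero_smul] at h3
    rw [hv, h3]
    unfold val
    simp
  · obtain ⟨g, c, hc, hg⟩ := exists_zeros v hv
    set q : Fin n → Fin 2 → AlgebraicClosure K := fun i => nu (g i) with hq
    rw [hg, val_smul, val_pnt] at h
    obtain ⟨i, _, hi⟩ := Finset.prod_eq_zero_iff.mp ((mul_eq_zero.mp h).resolve_left hc)
    have hqi : q i ≠ 0 := nu_ne _
    obtain ⟨a, ha⟩ : ∃ a : AlgebraicClosure K, y = a • q i := by
      by_cases h1 : q i 1 = 0
      · have h0 : q i 0 ≠ 0 := by
          intro h0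
          apply hqi
          funext l
          fin_cases l
          · exact h0
          · exact h1
        have hy1 : y 1 = 0 := by
          rw [h1, zero_mul, zero_sub, neg_eq_zero] at hi
          exact (mul_eq_zero.mp hi).resolve_left h0
        refine ⟨y 0 / q i 0, ?_⟩
        funext l
        fin_cases l
        · show y 0 = y 0 / q i 0 * q i 0
          field_simp
        · show y 1 = y 0 / q i 0 * q i 1
          rw [h1, hy1, mul_zero]
      · refine ⟨y 1 / q i 1, ?_⟩
        funext l
        fin_cases l
        · show y 0 = y 1 / q i 1 * q i 0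
          rw [div_mul_eq_mul_div, eq_div_iff h1]
          linear_combination hi
        · show y 1 = y 1 / q i 1 * q i 1
          field_simp
    rw [hg, act_smul hΦ, hs, val_smul, val_pnt, ha, act_smul hf]
    refine mul_eq_zero_of_right _ (Finset.prod_eq_zero (Finset.mem_univ i) ?_)
    simp only [Pi.smul_apply, smul_eq_mul]
    ring

end symm

end Pool.Agent.U934.GF
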